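import Pool.Agent.K1H22.SR.Stm

set_option autoImplicit false

/-! Project SR, piece B2: `S_SLOPE` from `S_PUMP` (helper85) -/

namespace Pool.Agent.K1H85.SR

open Pool.Agent.K1H22.SR

section

variable {Q : Type} {R : Finset (Q × Q × Q)} {Bs : Finset (Q × (ℕ × ℕ))}

theorem plug_der {X H : Q} {a b : ℕ × ℕ} (h : Ctx R Bs X H a) (hb : Der R Bs H b) :
    Der R Bs X (a + b) := by
  induction h with
  | refl => rw [zero_add]; exact hb
  | left hR _ hZ ih =>
    have h1 := Der.node hR (ih hb) hZ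
    rwa [add_right_comm] at h1
  | right hR hY _ ih =>
    have h1 := Der.node hR hY (ih hb)
    rwa [← add_assoc] at h1

theorem plug_ctx {X H H' : Q} {a b : ℕ × ℕ} (h : Ctx R Bs X H a) (hb : Ctx R Bs H H' b) :
    Ctx R Bs X H' (a + b) := by
  induction h with
  | refl => rw [zero_add]; exact hb
  | left hR _ hZ ih =>
    have h1 := Ctx.left hR (ih hb) hZ
    rwa [add_right_comm] at h1
  | right hR hY _ ih =>
    have h1 := Ctx.right hR hY (ih hb)
    rwa [← add_assoc] at h1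

theorem iter {H : Q} {l : ℕ × ℕ} (h : Ctx R Bs H H l) (k : ℕ) : Ctx R Bs H H (k • l) := by
  induction k with
  | zero => rw [zero_smul]; exact Ctx.refl
  | succ k ih =>
    rw [succ_nsmul]
    exact plug_ctx ih h

/-- weights of lists -/
theorem list_sum {μ : ℝ} (L : List (Q × (ℕ × ℕ)))
    (h : ∀ x ∈ L, μ * (x.2.1 : ℝ) ≤ (x.2.2 : ℝ)) :
    μ * (((L.map Prod.snd).sum.1 : ℕ) : ℝ) ≤ (((L.map Prod.snd).sum.2 : ℕ) : ℝ) := by
  induction L with
  | nil => simp
  | cons x L ih =>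
    have h1 := h x List.mem_cons_self
    have h2 := ih fun y hy => h y (List.mem_cons_of_mem _ hy)
    rw [List.map_cons, List.sum_cons, Prod.fst_add, Prod.snd_add]
    push_cast
    rw [mul_add]
    linarith

theorem list_zero (L : List (Q × (ℕ × ℕ))) (h : ∀ x ∈ L, x.2.1 = 0) :
    (L.map Prod.snd).sum.1 = 0 := by
  induction L with
  | nil => rfl
  | cons x L ih =>
    rw [List.map_cons, List.sum_cons, Prod.fst_add, h x List.mem_cons_self,
      ih fun y hy => h y (List.mem_cons_of_mem _ hy)]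

end

theorem t_SLOPE (h : S_PUMP) : S_SLOPE := by
  intro Q R Bs X0 s hi hii
  classical
  obtain ⟨Lp, C, hLp, hdec⟩ := h Q R Bs
  set A : Finset (Q × (ℕ × ℕ)) := Lp.filter fun x =>
    (∃ a, Ctx R Bs X0 x.1 a) ∧ (∃ b, Der R Bs x.1 b) ∧ 0 < x.2.1 with hA
  have hsA : ∀ x ∈ A, s * (x.2.1 : ℝ) ≤ (x.2.2 : ℝ) := by
    intro x hx
    rw [hA, Finset.mem_filter] at hx
    obtain ⟨hxL, ⟨a, ha⟩, ⟨b, hb⟩, -⟩ := hx
    by_contra hcon
    push Not at hcon
    have hδ : 0 < s * (x.2.1 : ℝ) - x.2.2 := by linarith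
    obtain ⟨k, hk⟩ := exists_nat_gt
      (((a.2 : ℝ) + b.2 - s * (a.1 + b.1)) / (s * (x.2.1 : ℝ) - x.2.2))
    rw [div_lt_iff₀ hδ] at hk
    have h1 : Der R Bs X0 (a + (k • x.2 + b)) := plug_der ha (plug_der (iter (hLp x hxL) k) hb)
    have h2 := hi (a + (k • x.2 + b)).1 (a + (k • x.2 + b)).2 h1
    simp only [Prod.fst_add, Prod.snd_add, Prod.smul_fst, Prod.smul_snd, smul_eq_mul] at h2
    push_cast at h2
    nlinarith
  rcases A.eq_empty_or_nonempty with hAe | hAn
  · exfalso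
    obtain ⟨n, d, hn, hder, -⟩ := hii 1 one_pos (C + 1)
    obtain ⟨v0, L, hv0, hL, hv⟩ := hdec X0 (n, d) hder
    have h0 : ∀ x ∈ L, x.2.1 = 0 := by
      intro x hx
      obtain ⟨h1, h2, h3⟩ := hL x hx
      by_contra hne
      have : x ∈ A := by
        rw [hA, Finset.mem_filter]
        exact ⟨h1, h2, h3, Nat.pos_of_ne_zero hne⟩
      rw [hAe] at this
      exact absurd this (Finset.notMem_empty x)
    have h1 := congrArg Prod.fst hv
    rw [Prod.fst_add, list_zero L h0] at h1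
    have h2 : n = v0.1 + 0 := h1
    omega
  · obtain ⟨x, hx, hmin⟩ := Finset.exists_min_image A
      (fun x => (x.2.2 : ℝ) / (x.2.1 : ℝ)) hAn
    have hxp : 0 < x.2.1 := by
      rw [hA, Finset.mem_filter] at hx
      exact hx.2.2.2
    have hxp' : (0 : ℝ) < x.2.1 := by exact_mod_cast hxp
    obtain ⟨μ, hμ⟩ : ∃ μ : ℝ, μ = (x.2.2 : ℝ) / (x.2.1 : ℝ) := ⟨_, rfl⟩
    have hμ0 : 0 ≤ μ := by rw [hμ]; positivity
    refine ⟨(x.2.2 : ℚ) / (x.2.1 : ℚ), ?_⟩
    have hq : (((x.2.2 : ℚ) / (x.2.1 : ℚ) : ℚ) : ℝ) = μ := by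
      rw [hμ]
      push_cast
      rfl
    rw [hq]
    apply le_antisymm
    · rw [hμ, le_div_iff₀ hxp']
      exact hsA x hx
    · refine le_of_forall_pos_le_add fun ε hε => ?_
      by_contra hcon
      push Not at hcon
      have hδ : 0 < μ - (s + ε) := by linarith
      obtain ⟨N, hN⟩ := exists_nat_gt (μ * C / (μ - (s + ε)))
      rw [div_lt_iff₀ hδ] at hN
      obtain ⟨n, d, hn, hder, hd⟩ := hii ε hε N
      obtain ⟨v0, L, hv0, hL, hv⟩ := hdec X0 (n, d) hder
      have h0 : ∀ y ∈ L, μ * (y.2.1 : ℝ) ≤ (y.2.2 : ℝ) := by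
        intro y hy
        obtain ⟨h1, h2, h3⟩ := hL y hy
        rcases Nat.eq_zero_or_pos y.2.1 with hy0 | hy0
        · rw [hy0]
          simp
        · have hyA : y ∈ A := by
            rw [hA, Finset.mem_filter]
            exact ⟨h1, h2, h3, hy0⟩
          have h4 := hmin y hyA
          rw [← hμ, le_div_iff₀ (by exact_mod_cast hy0)] at h4
          exact h4
      have h1 := list_sum L h0
      have e1 : n = v0.1 + (L.map Prod.snd).sum.1 := congrArg Prod.fst hv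
      have e2 : d = v0.2 + (L.map Prod.snd).sum.2 := congrArg Prod.snd hv
      have e1' : (n : ℝ) = v0.1 + ((L.map Prod.snd).sum.1 : ℕ) := by exact_mod_cast e1
      have e2' : (d : ℝ) = v0.2 + ((L.map Prod.snd).sum.2 : ℕ) := by exact_mod_cast e2
      have hv0' : (v0.1 : ℝ) ≤ C := by exact_mod_cast hv0
      have hv2 : (0 : ℝ) ≤ v0.2 := by positivity
      have hn' : (N : ℝ) ≤ n := by exact_mod_cast hn
      have h5 : μ * (v0.1 : ℝ) ≤ μ * C := mul_le_mul_of_nonneg_left hv0' hμ0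
      have h6 : μ * n ≤ μ * C + d := by
        rw [e1', e2', mul_add]
        linarith
      have h7 : (N : ℝ) * (μ - (s + ε)) ≤ n * (μ - (s + ε)) :=
        mul_le_mul_of_nonneg_right hn' hδ.le
      nlinarith

end Pool.Agent.K1H85.SR
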